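import Pool.Agent.helper3.SP.SpecPP

/-!
# Project sp, module PP26: all black tracks together, for every recoloured brick
-/

namespace TP

open DP MeasureTheory

theorem PP26_par {m₀ n₀ ℓ₁ ℓ S ℓ₃ : ℕ} (h : ParC m₀ n₀ ℓ₁ ℓ S ℓ₃) :
    16 ≤ ℓ₁ ∧ 64 * ℓ₁ ≤ ℓ ∧ 16 ≤ S ∧ ℓ ≤ S ^ 3 * ℓ ∧ 64 * (S ^ 3 * ℓ) ≤ ℓ₃ := by
  obtain ⟨h1, h2, h3, h4, h5, h6⟩ := h
  refine ⟨by omega, h3, h4, ?_, h5⟩
  have : 1 ≤ S ^ 3 := Nat.one_le_pow _ _ (by omega)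
  nlinarith

/-- A connected set from the `r`-neighbourhood of `A` to a far point meets a set hooking at `A`. -/
theorem PP26_hook {c : V → Bool} {R H U T : Set V} {A p u : V} {r : ℕ} (hH : Hok H A r)
    (hU : CnS c true R U) (hp : p ∈ U) (hu : u ∈ U) (hT : U ⊆ T) (h1 : sd A p ≤ r)
    (h2 : 3 * r ≤ sd A u) : (H ∩ T).Nonempty := by
  obtain ⟨z, hz, hz'⟩ := hH U p u (hU.2 p hp u hu) h1 h2
  exact ⟨z, hz, hT hz'⟩

theorem PP26_hok_mono {H K : Set V} {A : V} {r : ℕ} (h : Hok H A r) (hK : H ⊆ K) : Hok K A r := by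
  intro W u v h1 h2 h3
  obtain ⟨z, hz, hz'⟩ := h W u v h1 h2 h3
  exact ⟨z, hK hz, hz'⟩

theorem PP26_cns_mono {c : V → Bool} {R R' U : Set V} (h : CnS c true R U) (hR : R ⊆ R') :
    CnS c true R' U := ⟨fun v hv => ⟨hR (h.1 v hv).1, (h.1 v hv).2⟩, h.2⟩

/-- Existence of the connected set of a black wire. -/
theorem PP26_wire (h10 : PP10_stmt) (h13 : PP13_stmt) {c : V → Bool} {x : V}
    {m₀ n₀ ℓ₁ ℓ S ℓ₃ : ℕ} (hP : ParC m₀ n₀ ℓ₁ ℓ S ℓ₃) (hL : Lps c true (Lblk x ℓ₁ ℓ S ℓ₃))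
    {w : Wire} (hw : w ∈ Wblk x ℓ₁ ℓ S ℓ₃) :
    ∃ U : Set V, CnS c true (regL w.all) U ∧ ∀ q ∈ w.all, Hok U q.1 q.2 := by
  obtain ⟨a1, a2, a3, a4, a5⟩ := PP26_par hP
  refine h10 c true w ((h13.1 x ℓ₁ ℓ S ℓ₃ (by omega) (by omega) (by omega) (by omega)).1 w hw)
    fun q hq => hL q ?_
  exact List.mem_flatMap.2 ⟨w, hw, hq⟩

theorem PP26_reg {x : V} {ℓ₁ ℓ S ℓ₃ : ℕ} {w : Wire} (hw : w ∈ Wblk x ℓ₁ ℓ S ℓ₃) :
    regL w.all ⊆ regL (Lblk x ℓ₁ ℓ S ℓ₃) := by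
  rintro v ⟨q, hq, hv⟩
  exact ⟨q, List.mem_flatMap.2 ⟨w, hw, hq⟩, hv⟩

theorem PP26_br {v w : V} (hw : (w.1 + w.2) % 2 = 0) (h : br v = br w) : sd v w ≤ 1 := by
  have e : br w = w := by simp [br, hw]
  rw [e] at h
  rw [← h]
  exact sd_br_le v


theorem PP26_scel {ℓ t d N : ℕ} {q : V} (ht : t ≤ N) :
    zpt q (2 * t * ℓ) d ∈ scel ℓ (q, d, N) := by
  unfold scel
  exact List.mem_map.2 ⟨t, List.mem_range.2 (by simp only; omega), rfl⟩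

/-- The large loops of the hub with four and six arms. -/
theorem PP26_hub_bg (z : V) (ℓ : ℕ) (s e : Bool) :
    ((z.1 + sge s * (256 * ℓ), z.2 + sge e * (128 * ℓ)), 8 * ℓ) ∈ (hubB z ℓ s).all := by
  unfold Wire.all
  refine List.mem_append_right _ ?_
  cases e
  · refine List.mem_cons_of_mem _ (List.mem_cons.2 (Or.inl ?_))
    simp [sge, sub_eq_add_neg]
  · refine List.mem_cons.2 (Or.inl ?_)
    simp [sge]

theorem PP26_hub_in (z : V) (ℓ : ℕ) (s : Bool) :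
    ((z.1 + sge s * (32 * ℓ), z.2), ℓ) ∈ (hubB z ℓ s).all := by
  unfold Wire.all
  refine List.mem_append_left _ (List.mem_map.2 ⟨_, ?_, rfl⟩)
  refine List.mem_flatMap.2 ⟨((z.1 + sge s * (32 * ℓ), z.2), dre s, 48), ?_, ?_⟩
  · simp [hubB]
  · have := PP26_scel (ℓ := (hubB z ℓ s).l) (t := 0) (d := dre s) (N := 48)
      (q := (z.1 + sge s * (32 * ℓ), z.2)) (by norm_num)
    convert this using 1
    cases s <;> simp [zpt, dre]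

theorem PP26_out_bg (x : V) (ℓ : ℕ) (s : Bool) :
    ((x.1 + sge s * (256 * ℓ), x.2), 8 * ℓ) ∈ (outB x ℓ s).all := by
  unfold Wire.all
  exact List.mem_append_right _ (List.mem_cons.2 (Or.inl rfl))

theorem PP26_out_in (x : V) (ℓ : ℕ) (s e : Bool) :
    ((x.1 + sge s * (32 * ℓ), x.2 + sge e * (16 * ℓ)), ℓ) ∈ (outB x ℓ s).all := by
  unfold Wire.all
  refine List.mem_append_left _ (List.mem_map.2 ⟨_, ?_, rfl⟩)
  cases e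
  · refine List.mem_flatMap.2 ⟨((x.1 + sge s * (64 * ℓ), x.2 - 16 * ℓ), dre (!s), 16), ?_, ?_⟩
    · simp [outB]
    · have := PP26_scel (ℓ := (outB x ℓ s).l) (t := 16) (d := dre (!s)) (N := 16)
        (q := (x.1 + sge s * (64 * ℓ), x.2 - 16 * ℓ)) (by norm_num)
      convert this using 1
      cases s <;> simp [zpt, dre, sge, outB] <;> constructor <;> ring
  · refine List.mem_flatMap.2 ⟨((x.1 + sge s * (32 * ℓ), x.2 + 16 * ℓ), dre s, 16), ?_, ?_⟩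
    · simp [outB]
    · have := PP26_scel (ℓ := (outB x ℓ s).l) (t := 0) (d := dre s) (N := 16)
        (q := (x.1 + sge s * (32 * ℓ), x.2 + 16 * ℓ)) (by norm_num)
      convert this using 1
      cases s <;> simp [zpt, dre, sge]

/-- Number of the arm on the side `s` (right, left), upper or lower `e`. -/
def PP26_no (s e : Bool) : ℕ :=
  if s = true then (if e = true then 1 else 0) else (if e = true then 3 else 4)

theorem PP26_zp6 (z : V) (k : ℕ) (s e : Bool) :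
    zp6 z (2 * k) (PP26_no s e) = (z.1 + sge s * (2 * k : ℕ), z.2 + sge e * k) := by
  have h2 : 2 * k / 2 = k := by omega
  cases s <;> cases e <;> simp [zp6, sge, PP26_no, h2, sub_eq_add_neg]

theorem PP26_no_lt (s e : Bool) : PP26_no s e < 6 ∧ kol6 (PP26_no s e) = true := by
  cases s <;> cases e <;> simp [PP26_no, kol6]

theorem PP26_inn {c : V → Bool} {z : V} {ℓ₁ ℓ : ℕ} {H T : Set V} {U : ℕ → Set V} (h1 : 16 ≤ ℓ₁)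
    (h2 : 64 * ℓ₁ ≤ ℓ) (hLeg : Legs c z (256 * ℓ₁) (32 * ℓ) U) (s e : Bool)
    (hH : ∀ q ∈ (hubB z ℓ₁ s).all, Hok H q.1 q.2) (hT : U (PP26_no s e) ⊆ T) :
    (H ∩ T).Nonempty := by
  obtain ⟨hc, p, hp, u, hu, hpb, hub, hsp, hsu⟩ :=
    hLeg.2.2 (PP26_no s e) (PP26_no_lt s e).1 (PP26_no_lt s e).2
  have hk := hH _ (PP26_hub_bg z ℓ₁ s e)
  have e1 : zp6 z (256 * ℓ₁) (PP26_no s e) =
      (z.1 + sge s * (256 * ℓ₁), z.2 + sge e * (128 * ℓ₁)) := by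
    have := PP26_zp6 z (128 * ℓ₁) s e
    rw [show 2 * (128 * ℓ₁) = 256 * ℓ₁ by ring] at this
    rw [this]
    push_cast
    rfl
  rw [e1] at hsp
  refine PP26_hook hk hc hp hu hT ?_ ?_
  · have : 256 * ℓ₁ / 64 ≤ 8 * ℓ₁ := by omega
    exact hsp.trans this
  · have hu' : sd z u = 32 * ℓ := hub
    have t1 := sd_triangle z (z.1 + sge s * (256 * ℓ₁), z.2 + sge e * (128 * ℓ₁)) u
    have t2 : sd z (z.1 + sge s * (256 * ℓ₁), z.2 + sge e * (128 * ℓ₁)) ≤ 256 * ℓ₁ := by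
      rw [sd_le_iff]
      cases s <;> cases e <;> simp [sge] <;> omega
    simp only
    omega

theorem PP26_outh {c : V → Bool} {x : V} {L ℓ₃ : ℕ} {H T : Set V} {U : ℕ → Set V}
    (h1 : 16 ≤ ℓ₃) (h2 : 64 * L ≤ ℓ₃) (hLeg : Legs c x (32 * L) (32 * ℓ₃) U) (s e : Bool)
    (hH : ∀ q ∈ (outB x ℓ₃ s).all, Hok H q.1 q.2) (hT : U (PP26_no s e) ⊆ T) :
    (T ∩ H).Nonempty := by
  obtain ⟨hc, p, hp, u, hu, hpb, hub, hsp, hsu⟩ :=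
    hLeg.2.2 (PP26_no s e) (PP26_no_lt s e).1 (PP26_no_lt s e).2
  have hk := hH _ (PP26_out_in x ℓ₃ s e)
  have e1 : zp6 x (32 * ℓ₃) (PP26_no s e) =
      (x.1 + sge s * (32 * ℓ₃), x.2 + sge e * (16 * ℓ₃)) := by
    have := PP26_zp6 x (16 * ℓ₃) s e
    rw [show 2 * (16 * ℓ₃) = 32 * ℓ₃ by ring] at this
    rw [this]
    push_cast
    rfl
  rw [e1] at hsu
  rw [Set.inter_comm]
  refine PP26_hook hk hc hu hp hT ?_ ?_
  · have : 32 * ℓ₃ / 64 ≤ ℓ₃ := by omega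
    exact hsu.trans this
  · have hp' : sd x p = 32 * L := hpb
    have hu' : sd x u = 32 * ℓ₃ := hub
    have t1 := sd_triangle x p u
    have t3 := sd_triangle p (x.1 + sge s * (32 * ℓ₃), x.2 + sge e * (16 * ℓ₃)) u
    have t4 := sd_comm p (x.1 + sge s * (32 * ℓ₃), x.2 + sge e * (16 * ℓ₃))
    have t5 : 32 * ℓ₃ / 64 ≤ ℓ₃ / 2 := by omega
    simp only
    omega

/-- The hubs do not meet the brick of `w`. -/
theorem PP26_hub_br (h14 : PP14_stmt) {z w : V} {ℓ₁ S : ℕ} (s : Bool) (h1 : 16 ≤ ℓ₁) (hS : 16 ≤ S)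
    (hw : (w.1 + w.2) % 2 = 0) (hz : 512 * ℓ₁ < sd z w) :
    ∀ v ∈ regL (hubB z ℓ₁ s).all, br v ≠ br w := by
  intro v hv hb
  have h2 := PP26_br hw hb
  have h3 : sd z v ≤ 300 * ℓ₁ := by
    rw [sd_le_iff]
    rcases (h14 z ℓ₁ S s (by omega) hS).1 v hv with h | h | h | h <;>
      (simp only [abs_lt] at h; cases s <;> simp [sge] at h ⊢ <;> omega)
  have := sd_triangle z v w
  omega

theorem PP26_out_br (h14 : PP14_stmt) {x w : V} {ℓ₃ S : ℕ} (s : Bool) (h1 : 16 ≤ ℓ₃) (hS : 16 ≤ S)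
    (hw : (w.1 + w.2) % 2 = 0) (hz : sd x w < 16 * ℓ₃) :
    ∀ v ∈ regL (outB x ℓ₃ s).all, br v ≠ br w := by
  intro v hv hb
  have h2 := PP26_br hw hb
  have h4 := sd_comm v w
  have h5 := sd_triangle x w v
  have h3 : sd x v ≤ 17 * ℓ₃ := by omega
  rw [sd_le_iff] at h3
  rcases (h14 x ℓ₃ S s (by omega) hS).2.1 v hv with h | h | h | h <;>
    (simp only [abs_lt] at h; cases s <;> simp [sge] at h h3 <;> omega)


theorem PP26_mem (x : V) (ℓ₁ ℓ S ℓ₃ : ℕ) (e : Bool) :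
    hubB x ℓ₁ e ∈ Wblk x ℓ₁ ℓ S ℓ₃ ∧ hubB (yc x ℓ S) ℓ₁ e ∈ Wblk x ℓ₁ ℓ S ℓ₃ ∧
      midX x ℓ S e ∈ Wblk x ℓ₁ ℓ S ℓ₃ ∧ midY x ℓ S e ∈ Wblk x ℓ₁ ℓ S ℓ₃ ∧
        midZ x ℓ S e ∈ Wblk x ℓ₁ ℓ S ℓ₃ ∧ outB x ℓ₃ e ∈ Wblk x ℓ₁ ℓ S ℓ₃ := by
  cases e <;> simp [Wblk]

theorem PP26 (h10 : PP10_stmt) (h13 : PP13_stmt) (h14 : PP14_stmt) (h17 : PP17_stmt)
    (h21 : PP21_stmt) (h22 : PP22_stmt) (h23 : PP23_stmt) (h24 : PP24_stmt) (h25 : PP25_stmt) :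
    PP26_stmt := by
  intro c x m₀ n₀ ℓ₁ ℓ S ℓ₃ hP hA hL w hw hW
  obtain ⟨a1, a2, a3, a4, a5⟩ := PP26_par hP
  obtain ⟨-, -, hx, hy, ho, -⟩ := hA
  obtain ⟨Ux, hUx⟩ := h22 c x _ _ hx
  obtain ⟨Uy, hUy⟩ := h22 c _ _ _ hy
  obtain ⟨Uo, hUo⟩ := h22 c x _ _ ho
  choose HX hHX using fun e => PP26_wire h10 h13 hP hL (PP26_mem x ℓ₁ ℓ S ℓ₃ e).1
  choose HY hHY using fun e => PP26_wire h10 h13 hP hL (PP26_mem x ℓ₁ ℓ S ℓ₃ e).2.1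
  choose MX hMX using fun e => PP26_wire h10 h13 hP hL (PP26_mem x ℓ₁ ℓ S ℓ₃ e).2.2.1
  choose MY hMY using fun e => PP26_wire h10 h13 hP hL (PP26_mem x ℓ₁ ℓ S ℓ₃ e).2.2.2.1
  choose MZ hMZ using fun e => PP26_wire h10 h13 hP hL (PP26_mem x ℓ₁ ℓ S ℓ₃ e).2.2.2.2.1
  choose HO hHO using fun e => PP26_wire h10 h13 hP hL (PP26_mem x ℓ₁ ℓ S ℓ₃ e).2.2.2.2.2
  obtain ⟨TX, hTXd, hTX⟩ := h23 c x m₀ n₀ ℓ₁ ℓ S ℓ₃ Ux Uy MX hP hUx hUy hMX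
  obtain ⟨TY, hTYd, hTY⟩ := h24 c x m₀ n₀ ℓ₁ ℓ S ℓ₃ Uy Uo MY hP hUy hUo hMY
  obtain ⟨TZ, hTZd, hTZ⟩ := h25 c x m₀ n₀ ℓ₁ ℓ S ℓ₃ Ux Uo MZ hP hUx hUo hMZ
  have hR : ∀ W ∈ Wblk x ℓ₁ ℓ S ℓ₃, regL W.all ⊆ ann x (29 * ℓ₁) (280 * ℓ₃) := fun W hW =>
    (PP26_reg hW).trans (h17 x m₀ n₀ ℓ₁ ℓ S ℓ₃ true hP).1
  have cHX : ∀ e, CnS c true (ann x (29 * ℓ₁) (280 * ℓ₃)) (HX e) := fun e =>
    PP26_cns_mono (hHX e).1 (hR _ (PP26_mem x ℓ₁ ℓ S ℓ₃ e).1)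
  have cHY : ∀ e, CnS c true (ann x (29 * ℓ₁) (280 * ℓ₃)) (HY e) := fun e =>
    PP26_cns_mono (hHY e).1 (hR _ (PP26_mem x ℓ₁ ℓ S ℓ₃ e).2.1)
  have cHO : ∀ e, CnS c true (ann x (29 * ℓ₁) (280 * ℓ₃)) (HO e) := fun e =>
    PP26_cns_mono (hHO e).1 (hR _ (PP26_mem x ℓ₁ ℓ S ℓ₃ e).2.2.2.2.2)
  obtain ⟨w1, w2, w3⟩ := hW
  have bHX : ∀ e, ∀ v ∈ HX e, br v ≠ br w := fun e v hv =>
    PP26_hub_br h14 e a1 a3 hw w2 v ((hHX e).1.1 v hv).1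
  have bHY : ∀ e, ∀ v ∈ HY e, br v ≠ br w := fun e v hv =>
    PP26_hub_br h14 e a1 a3 hw w3 v ((hHY e).1.1 v hv).1
  have bHO : ∀ e, ∀ v ∈ HO e, br v ≠ br w := fun e v hv =>
    PP26_out_br h14 e (by omega) a3 hw w1 v ((hHO e).1.1 v hv).1
  obtain ⟨K₁, k1, k2, k3⟩ := h21 c w _ (HX true) (HY false) TX (cHX true) (cHY false)
    (fun e => ⟨(hTX e).1, PP26_inn a1 a2 hUx true e (hHX true).2 (hTX e).2.1, by
      rw [Set.inter_comm]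
      exact PP26_inn a1 a2 hUy false e (hHY false).2 (hTX e).2.2⟩) hTXd
    (fun v hv => hv.elim (bHX true v) (bHY false v))
  obtain ⟨K₂, l1, l2, l3⟩ := h21 c w _ (HX false) (HO false) TZ (cHX false) (cHO false)
    (fun e => ⟨(hTZ e).1, PP26_inn a1 a2 hUx false e (hHX false).2 (hTZ e).2.1,
      PP26_outh (by omega) a5 hUo false e (hHO false).2 (hTZ e).2.2⟩) hTZd
    (fun v hv => hv.elim (bHX false v) (bHO false v))
  obtain ⟨K₃, n1, n2, n3⟩ := h21 c w _ (HY true) (HO true) TY (cHY true) (cHO true)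
    (fun e => ⟨(hTY e).1, PP26_inn a1 a2 hUy true e (hHY true).2 (hTY e).2.1,
      PP26_outh (by omega) a5 hUo true e (hHO true).2 (hTY e).2.2⟩) hTYd
    (fun v hv => hv.elim (bHY true v) (bHO true v))
  have z0 : ∀ (z : V) (k : ℕ), zpt z k 0 = (z.1 + sge true * k, z.2) := fun z k => by
    simp [zpt, sge]
  have z2 : ∀ (z : V) (k : ℕ), zpt z k 2 = (z.1 + sge false * k, z.2) := fun z k => by
    simp [zpt, sge, sub_eq_add_neg]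
  refine ⟨K₁, K₂, K₃, ⟨k1, ?_, ?_⟩, ⟨l1, ?_, ?_⟩, ⟨n1, ?_, ?_⟩⟩
  · rw [z0]
    have := (hHX true).2 _ (PP26_hub_in x ℓ₁ true)
    push_cast
    exact PP26_hok_mono this k2
  · rw [z2]
    have := (hHY false).2 _ (PP26_hub_in (yc x ℓ S) ℓ₁ false)
    push_cast
    exact PP26_hok_mono this k3
  · rw [z2]
    have := (hHX false).2 _ (PP26_hub_in x ℓ₁ false)
    push_cast
    exact PP26_hok_mono this l2
  · rw [z2]
    have := (hHO false).2 _ (PP26_out_bg x ℓ₃ false)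
    push_cast
    exact PP26_hok_mono this l3
  · rw [z0]
    have := (hHY true).2 _ (PP26_hub_in (yc x ℓ S) ℓ₁ true)
    push_cast
    exact PP26_hok_mono this n2
  · rw [z0]
    have := (hHO true).2 _ (PP26_out_bg x ℓ₃ true)
    push_cast
    exact PP26_hok_mono this n3

end TP
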